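import Pool.Agent.P.MP_d10a06_co.GW.Final
import Pool.Agent.P.MP_d10a06_co.GW.Cnt
import Pool.Agent.P.MP_d10a06_co.GW.Asy
import Pool.Agent.P.MP_d10a06_co.GW.Split
import Pool.Agent.P.MP_d10a06_co.GW.Geo
import Pool.Agent.P.MP_d10a06_co.GW.Dir
import Pool.Agent.P.MP_d10a06_co.GW.CertU
import Pool.Agent.P.MP_d10a06_co.GW.CertL

set_option autoImplicit false

namespace Pool.Agent.Results.MP_d10a06_co.Gap

open Finset Pool.Agent.P.MP_d10a06_co.GW

/-- `A` is `t`-independent in the abelian group `G`: no integer combination of the elements of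
`A` whose coefficients have absolute values summing to a number in `[1, t]` vanishes. -/
def Ind {G : Type} [AddCommGroup G] (t : ℕ) (A : Finset G) : Prop :=
  ∀ c : G → ℤ, 1 ≤ ∑ a ∈ A, |c a| → ∑ a ∈ A, |c a| ≤ t → ∑ a ∈ A, c a • a ≠ 0

/-- The counting bound `b(m,t)`. -/
def b (m t : ℕ) : ℕ :=
  if t % 2 = 0 then ∑ i ∈ range (t / 2 + 1), m.choose i * (t / 2).choose i * 2 ^ i
  else ∑ i ∈ Icc 1 ((t + 1) / 2), (m - 1).choose (i - 1) * ((t + 1) / 2).choose i * 2 ^ i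

/-- For every `t ≥ 8` there are `c > 0` and `m₀` such that a finite abelian group with a
`t`-independent set of size `m ≥ m₀` has order at least `b(m,t) + c m ^ (⌊t/2⌋ - 2)`. -/
theorem result (t : ℕ) (ht : 8 ≤ t) :
    ∃ c : ℝ, 0 < c ∧ ∃ m₀ : ℕ, ∀ (G : Type) [AddCommGroup G] [Finite G] (A : Finset G),
      m₀ ≤ A.card → Ind t A →
        (b A.card t : ℝ) + c * (A.card : ℝ) ^ (t / 2 - 2) ≤ Nat.card G :=
  main pCnt pDir (pAsy pCnt) pGeo (pCertU pSplit pGeo) (pCertL pSplit pGeo) ht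

end Pool.Agent.Results.MP_d10a06_co.Gap
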