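import Pool.Agent.P.MP_d10a06_co.Low

set_option autoImplicit false

namespace Pool.Agent.Results.MP_d10a06_co.Lower

open Pool.Agent.P.MP_d10a06_co

/-- For `t ≥ 4`, `s = ⌊t/2⌋` and `ε > 0`: for all large `n` with `t n` even, the cyclic group of
order `n` has a `t`-independent set `A` with `(1 - ε) n ≤ e s (s+1) |A|^s`, where `e = 1` for even
`t` and `e = 2` for odd `t`. -/
theorem result (t : ℕ) (ht : 4 ≤ t) (ε : ℝ) (hε : 0 < ε) :
    ∃ N : ℕ, ∀ n : ℕ, N ≤ n → Even (t * n) → ∃ A : Finset (ZMod n), Indep n t A ∧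
      (1 - ε) * (n : ℝ) ≤
        (((1 + t % 2) * (t / 2 * (t / 2 + 1)) * A.card ^ (t / 2) : ℕ) : ℝ) :=
  lower ht hε

end Pool.Agent.Results.MP_d10a06_co.Lower
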