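import Pool.Agent.P.MP_d10a06_co.Odd.Upper
import Pool.Agent.P.MP_d10a06_co.Odd.Sharp

namespace Pool.Agent.Results.MP_d10a06_co.OddFive

open Filter Pool.Agent.P.MP_d10a06_co

/-- The largest size of a 5-independent set in the cyclic group of order `n`. -/
noncomputable def tau (n : ℕ) : ℕ := sSup {m | ∃ A : Finset (ZMod n), Indep n 5 A ∧ A.card = m}

/-- The least divisor of `n` that is larger than 5. -/
noncomputable def ld (n : ℕ) : ℕ := sInf {d | d ∣ n ∧ 5 < d}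

lemma bdd (n : ℕ) [NeZero n] :
    BddAbove {m | ∃ A : Finset (ZMod n), Indep n 5 A ∧ A.card = m} :=
  ⟨Fintype.card (ZMod n), by rintro _ ⟨A, -, rfl⟩; exact A.card_le_univ⟩

lemma up {ε : ℝ} (hε : 0 < ε) : ∀ᶠ n : ℕ in atTop, Odd n →
    10 * (tau n : ℝ) ^ 2 / ((1 + 3 / (ld n : ℝ)) * n) ≤ 1 + ε := by
  obtain ⟨N, H⟩ := Odd.upper hε
  filter_upwards [eventually_ge_atTop (N + 6)] with n hn ho
  have : NeZero n := ⟨by omega⟩
  obtain ⟨A, hA, hc⟩ := Nat.sSup_mem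
    (s := {m | ∃ A : Finset (ZMod n), Indep n 5 A ∧ A.card = m})
    ⟨0, ∅, fun c h => by simp at h, rfl⟩ (bdd n)
  have h1 : ld n ∈ {d | d ∣ n ∧ 5 < d} :=
    Nat.sInf_mem (s := {d | d ∣ n ∧ 5 < d}) ⟨n, dvd_rfl, by omega⟩
  have h2 := H n (ld n) (by omega) ho (by have := h1.2; omega)
    (fun d h3 h4 => Nat.sInf_le ⟨h3, h4⟩) A hA
  rw [hc] at h2
  have h3 : (0 : ℝ) ≤ 3 / (ld n : ℝ) := by positivity
  have h4 : (0 : ℝ) < n := by exact_mod_cast (by omega : 0 < n)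
  rw [div_le_iff₀ (by positivity)]
  have h5 : 0 ≤ ε * (3 / (ld n : ℝ)) * n := by positivity
  unfold tau
  linarith

lemma low {ε : ℝ} (hε : 0 < ε) : ∃ᶠ n : ℕ in atTop, (Odd n ∧ 7 ∣ n) ∧
    1 - ε ≤ 10 * (tau n : ℝ) ^ 2 / ((1 + 3 / (ld n : ℝ)) * n) := by
  rw [frequently_atTop]
  intro N
  obtain ⟨k, hk⟩ := exists_nat_ge (max (N : ℝ) (2 / ε))
  obtain ⟨A, hc, hA⟩ := Odd.sharp k
  obtain ⟨q, hq⟩ : ∃ q, 2 ^ (3 * k + 1) = 2 * q + 2 :=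
    ⟨2 ^ (3 * k) - 1, by have := Nat.one_le_two_pow (n := 3 * k); rw [pow_succ]; omega⟩
  have hkq : k ≤ q := by have := Nat.lt_two_pow_self (n := 3 * k + 1); omega
  have h4 : 4 ^ (3 * k + 1) = 4 * (q * q) + 8 * q + 4 := by
    rw [show 4 = 2 * 2 by norm_num, mul_pow, hq]; ring
  have hn : 7 * (4 ^ (3 * k + 1) - 1) = 2 * (14 * (q * q) + 28 * q + 10) + 1 := by omega
  have hN : N ≤ k := by exact_mod_cast (le_max_left _ _).trans hk
  refine ⟨2 * (14 * (q * q) + 28 * q + 10) + 1, by omega, ⟨⟨_, rfl⟩, by omega⟩, ?_⟩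
  have h1 : 2 * q + 1 ≤ tau (2 * (14 * (q * q) + 28 * q + 10) + 1) := by
    rw [← hn]
    have : NeZero (7 * (4 ^ (3 * k + 1) - 1)) := ⟨by omega⟩
    exact le_csSup (bdd _) ⟨A, hA, by omega⟩
  have h2 : ld (2 * (14 * (q * q) + 28 * q + 10) + 1) = 7 := by
    have a1 : 7 ∈ {d | d ∣ 2 * (14 * (q * q) + 28 * q + 10) + 1 ∧ 5 < d} := ⟨by omega, by omega⟩
    have a2 := Nat.sInf_le a1
    obtain ⟨a3, a4⟩ := Nat.sInf_mem ⟨7, a1⟩
    unfold ld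
    have a5 : sInf {d | d ∣ 2 * (14 * (q * q) + 28 * q + 10) + 1 ∧ 5 < d} ≠ 6 := fun h => by
      rw [h] at a3; omega
    omega
  have h3 : (2 * q + 1 : ℝ) ≤ tau (2 * (14 * (q * q) + 28 * q + 10) + 1) := by exact_mod_cast h1
  have h5 : 2 ≤ (q : ℝ) * ε := by
    rw [← div_le_iff₀ hε]
    exact (le_max_right _ _).trans (hk.trans (Nat.cast_le.mpr hkq))
  have h6 : (0 : ℝ) ≤ q := Nat.cast_nonneg _
  have h7 := pow_le_pow_left₀ (by positivity) h3 2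
  rw [h2, le_div_iff₀ (by positivity)]
  push_cast
  nlinarith

theorem result (S : Set ℕ) (h1 : ∀ n ∈ S, Odd n) (h2 : ∀ n, Odd n → 7 ∣ n → n ∈ S) :
    limsup (fun n : ℕ => 10 * (tau n : ℝ) ^ 2 / ((1 + 3 / (ld n : ℝ)) * n))
      (atTop ⊓ principal S) = 1 := by
  have U : ∀ {ε : ℝ}, 0 < ε → ∀ᶠ n : ℕ in atTop ⊓ principal S,
      10 * (tau n : ℝ) ^ 2 / ((1 + 3 / (ld n : ℝ)) * n) ≤ 1 + ε := fun hε =>
    eventually_inf_principal.2 ((up hε).mono fun n h hn => h (h1 n hn))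
  have L : ∀ {ε : ℝ}, 0 < ε → ∃ᶠ n : ℕ in atTop ⊓ principal S,
      1 - ε ≤ 10 * (tau n : ℝ) ^ 2 / ((1 + 3 / (ld n : ℝ)) * n) := fun hε =>
    frequently_inf_principal.2 ((low hε).mono fun n h => ⟨h2 n h.1.1 h.1.2, h.2⟩)
  refine le_antisymm (le_of_forall_pos_le_add fun ε hε => ?_)
    (le_of_forall_pos_le_add fun ε hε => ?_)
  · exact limsup_le_of_le (IsCoboundedUnder.of_frequently_ge (L one_pos)) (U hε)
  · have := le_limsup_of_frequently_le (L hε) ⟨_, U one_pos⟩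
    linarith

end Pool.Agent.Results.MP_d10a06_co.OddFive
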