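import Pool.Agent.P.MP_d10a06_co.Pair

set_option autoImplicit false

namespace Pool.Agent.Results.MP_d10a06_co.Pairs

open Pool.Agent.P.MP_d10a06_co

/-- For every `n ≥ 1` and `t ≥ 2`: the cyclic group of order `n` contains a `t`-independent set
with two elements exactly when `n ≥ ⌊t²/2⌋ + t + 1` and one of: `t` even; `t ≡ 3 (mod 4)` and
`n` even; `n ≡ 2 (mod 4)`; `n ≥ (t+1)(t+2)/2`. -/
theorem result (n t : ℕ) (hn : 0 < n) (ht : 2 ≤ t) :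
    (∃ A : Finset (ZMod n), A.card = 2 ∧ Indep n t A) ↔
      t ^ 2 / 2 + t + 1 ≤ n ∧
        (t % 2 = 0 ∨ (t % 4 = 3 ∧ n % 2 = 0) ∨ n % 4 = 2 ∨ (t + 1) * (t + 2) ≤ 2 * n) :=
  pairs hn ht

end Pool.Agent.Results.MP_d10a06_co.Pairs
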